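import Pool.Agent.Helper59.PD.Gadget

/-!
# Many gadgets (PD-11b)
-/

set_option autoImplicit false

namespace Pool.Agent.Helper32.PD

open Finset
open scoped Classical

variable {V : Type}

/-- PD-11b: `N` gadgets, hubs indexed by `Fin N × Fin 9`. -/
theorem exists_gadgets (F : SimpleGraph V) (N : ℕ) (I L : Fin N × Fin 9 → Finset V)
    (f : Fin N × Fin 9 → V → V) (X O : Finset V) (ξ lam θ : ℝ) (n q : ℕ) (hn : 1 ≤ n)
    (hlam : 0 < lam) (hq : q = 2 ∨ q = 3) (S : Sys2 F I L f X O ξ lam θ n)
    (hsmall : 3 * lam + (900 * N + 20) * θ ≤ ξ) :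
    ∃ (W : Fin N → Finset V) (ref : Fin N × Fin 9 → V), (∀ u, (W u).card ≤ 30) ∧
      (∀ u u', u ≠ u' → ∀ w ∈ W u, ∀ w' ∈ W u', w ≠ w' ∧ ¬ F.Adj w w') ∧
      (∀ u, ∀ w ∈ W u, w ∈ X ∨ w ∈ O ∨ ∃ j, w = ref (u, j)) ∧
      (∀ l, ref l ∈ L l ∧ ref l ∈ W l.1) ∧
      ∀ u, Gadget F I ref q (W u) (fun l => l.1 = u) := by
  have main : ∀ A : Finset (Fin N), ∃ (W : Fin N → Finset V) (ref : Fin N × Fin 9 → V),
      (∀ u ∈ A, (W u).card ≤ 30) ∧
      (∀ u ∈ A, ∀ u' ∈ A, u ≠ u' → ∀ w ∈ W u, ∀ w' ∈ W u', w ≠ w' ∧ ¬ F.Adj w w') ∧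
      (∀ u ∈ A, ∀ w ∈ W u, w ∈ X ∨ w ∈ O ∨ ∃ j, w = ref (u, j)) ∧
      (∀ u ∈ A, ∀ j, ref (u, j) ∈ L (u, j) ∧ ref (u, j) ∈ W u) ∧
      ∀ u ∈ A, ∀ ref' : Fin N × Fin 9 → V, (∀ j, ref' (u, j) = ref (u, j)) →
        Gadget F I ref' q (W u) (fun l => l.1 = u) := by
    intro A
    induction A using Finset.induction_on with
    | empty =>
      obtain ⟨v₀⟩ : Nonempty (Fin N × Fin 9 → V) := by
        rcases isEmpty_or_nonempty (Fin N) with hN | ⟨⟨u⟩⟩
        · exact ⟨fun l => hN.elim l.1⟩
        · obtain ⟨v, -⟩ := (S.conn (u, 0)).1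
          exact ⟨fun _ => v⟩
      exact ⟨fun _ => ∅, v₀, by simp, by simp, by simp, by simp, by simp⟩
    | @insert u A hu ih =>
      obtain ⟨W, ref, h1, h2, h3, h4, h5⟩ := ih
      have hcard : (A.biUnion W).card ≤ 30 * N := by
        calc (A.biUnion W).card ≤ ∑ u ∈ A, (W u).card := Finset.card_biUnion_le
          _ ≤ ∑ u ∈ A, 30 := Finset.sum_le_sum h1
          _ = A.card * 30 := by rw [Finset.sum_const, smul_eq_mul]
          _ ≤ 30 * N := by
            have : A.card ≤ N := by
              have := Finset.card_le_univ A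
              rwa [Fintype.card_fin] at this
            omega
      obtain ⟨W', r, g1, g2, g3, g4, g5⟩ := exists_gadget F I L f X O ξ lam θ n (30 * N) q hn
        hlam hq S (by push_cast; linarith) (A.biUnion W) hcard (fun j => (u, j))
        (fun i j hij => by simpa using hij) (by
          intro w hw
          rw [Finset.mem_biUnion] at hw
          obtain ⟨u', hu', hw⟩ := hw
          rcases h3 u' hu' w hw with h | h | ⟨j, h⟩
          · exact Or.inl h
          · exact Or.inr (Or.inl h)
          · refine Or.inr (Or.inr ⟨(u', j), ?_, ?_⟩)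
            · intro j' hcon
              have : u' = u := congrArg Prod.fst hcon
              exact hu (this ▸ hu')
            · rw [h]
              exact (h4 u' hu' j).1)
      have hfst : (fun l : Fin N × Fin 9 => ∃ j, l = (u, j)) = fun l => l.1 = u := by
        funext l
        apply propext
        constructor
        · rintro ⟨j, rfl⟩
          rfl
        · intro h
          exact ⟨l.2, by rw [← h]⟩
      rw [hfst] at g5
      have hne : ∀ u' ∈ A, u' ≠ u := fun u' hu' e => hu (e ▸ hu')
      have hW1 : ∀ u' ∈ A, Function.update W u W' u' = W u' := fun u' hu' =>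
        Function.update_of_ne (hne u' hu') _ _
      have hW2 : Function.update W u W' u = W' := Function.update_self _ _ _
      set ref' : Fin N × Fin 9 → V := fun l => if l.1 = u then r l.2 else ref l with href'
      have hr1 : ∀ u' ∈ A, ∀ j, ref' (u', j) = ref (u', j) := by
        intro u' hu' j
        simp [href', hne u' hu']
      have hr2 : ∀ j, ref' (u, j) = r j := by
        intro j
        simp [href']
      refine ⟨Function.update W u W', ref', ?_, ?_, ?_, ?_, ?_⟩
      · intro u' hu'
        rcases Finset.mem_insert.1 hu' with rfl | hu'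
        · rw [hW2]
          exact g1
        · rw [hW1 u' hu']
          exact h1 u' hu'
      · intro u₁ hu₁ u₂ hu₂ hne' w hw w' hw'
        rcases Finset.mem_insert.1 hu₁ with e₁ | k₁
        · rcases Finset.mem_insert.1 hu₂ with e₂ | k₂
          · exact absurd (e₁.trans e₂.symm) hne'
          · rw [e₁, hW2] at hw
            rw [hW1 u₂ k₂] at hw'
            exact g2 w hw w' (Finset.mem_biUnion.2 ⟨u₂, k₂, hw'⟩)
        · rcases Finset.mem_insert.1 hu₂ with e₂ | k₂
          · rw [e₂, hW2] at hw'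
            rw [hW1 u₁ k₁] at hw
            have := g2 w' hw' w (Finset.mem_biUnion.2 ⟨u₁, k₁, hw⟩)
            exact ⟨this.1.symm, fun e => this.2 e.symm⟩
          · rw [hW1 u₁ k₁] at hw
            rw [hW1 u₂ k₂] at hw'
            exact h2 u₁ k₁ u₂ k₂ hne' w hw w' hw'
      · intro u' hu' w hw
        rcases Finset.mem_insert.1 hu' with rfl | hu'
        · rw [hW2] at hw
          rcases g3 w hw with h | h | ⟨j, h⟩
          · exact Or.inl h
          · exact Or.inr (Or.inl h)
          · exact Or.inr (Or.inr ⟨j, by rw [hr2, h]⟩)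
        · rw [hW1 u' hu'] at hw
          rcases h3 u' hu' w hw with h | h | ⟨j, h⟩
          · exact Or.inl h
          · exact Or.inr (Or.inl h)
          · exact Or.inr (Or.inr ⟨j, by rw [hr1 u' hu', h]⟩)
      · intro u' hu' j
        rcases Finset.mem_insert.1 hu' with rfl | hu'
        · rw [hW2, hr2]
          exact g4 j
        · rw [hW1 u' hu', hr1 u' hu']
          exact h4 u' hu' j
      · intro u' hu' ref'' href''
        rcases Finset.mem_insert.1 hu' with rfl | hu'
        · rw [hW2]
          exact g5 ref'' fun j => by rw [href'' j, hr2]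
        · rw [hW1 u' hu']
          exact h5 u' hu' ref'' fun j => by rw [href'' j, hr1 u' hu']
  obtain ⟨W, ref, h1, h2, h3, h4, h5⟩ := main univ
  exact ⟨W, ref, fun u => h1 u (mem_univ _), fun u u' => h2 u (mem_univ _) u' (mem_univ _),
    fun u => h3 u (mem_univ _), fun l => h4 l.1 (mem_univ _) l.2,
    fun u => h5 u (mem_univ _) ref fun _ => rfl⟩

end Pool.Agent.Helper32.PD
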