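import Mathlib

/-!
# The star lemma (PD-9)

Centres `x` with leaves `T j x` at three hubs. Without gadgets of the types E and P, the centres
split into three large parts which are pairwise unrelated.
-/

set_option autoImplicit false

namespace Pool.Agent.Helper32.PD

open Finset
open scoped Classical

variable {V : Type}

namespace Bundles

/-- Adjacent, or with a common leaf. -/
def Rel (F : SimpleGraph V) (T : Fin 3 → V → Finset V) (x y : V) : Prop :=
  F.Adj x y ∨ ∃ j, (T j x ∩ T j y).Nonempty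

theorem Rel.symm {F : SimpleGraph V} {T : Fin 3 → V → Finset V} {x y : V} (h : Rel F T x y) :
    Rel F T y x := by
  rcases h with h | ⟨l, h⟩
  · exact Or.inl h.symm
  · refine Or.inr ⟨l, ?_⟩
    rw [Finset.inter_comm]
    exact h

/-- The three possibilities for related centres, abstractly. -/
theorem tri_aux (A B : Fin 3 → Prop) (h : ∀ j k, j ≠ k → A j ∨ B k) :
    (∀ l, A l) ∨ (∀ l, B l) ∨ ∃ j, ∀ l, l ≠ j → A l ∧ B l := by
  have h01 := h 0 1 (by decide)
  have h02 := h 0 2 (by decide)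
  have h10 := h 1 0 (by decide)
  have h12 := h 1 2 (by decide)
  have h20 := h 2 0 (by decide)
  have h21 := h 2 1 (by decide)
  simp only [Fin.forall_fin_succ, Fin.exists_fin_succ]
  simp
  tauto

theorem exists_third : ∀ j j' : Fin 3, ∃ l : Fin 3, l ≠ j ∧ l ≠ j' := by
  decide

theorem exists_other : ∀ j k : Fin 3, j ≠ k →
    ∃ i : Fin 3, i ≠ j ∧ i ≠ k ∧ ∀ l, l = i ∨ l = j ∨ l = k := by
  decide

theorem trichotomy (F : SimpleGraph V) (X : Finset V) (T : Fin 3 → V → Finset V)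
    (hf : ∀ x ∈ X, ∀ j, (T j x).Nonempty)
    (hE : ∀ x ∈ X, ∀ y ∈ X, F.Adj x y → ∀ i j, i ≠ j → T i x ⊆ T i y ∨ T j y ⊆ T j x)
    (hP : ∀ x ∈ X, ∀ y ∈ X, x ≠ y → ¬ F.Adj x y → ∀ i j k, i ≠ j → i ≠ k → j ≠ k →
      (T i x ∩ T i y).Nonempty → T j x ⊆ T j y ∨ T k y ⊆ T k x)
    (x y : V) (hx : x ∈ X) (hy : y ∈ X) (h : Rel F T x y) :
    (∀ l, T l x ⊆ T l y) ∨ (∀ l, T l y ⊆ T l x) ∨
      ∃ j, ∀ l, l ≠ j → T l x ⊆ T l y ∧ T l y ⊆ T l x := by
  by_cases hxy : x = y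
  · subst hxy
    exact Or.inl fun l => Finset.Subset.refl _
  by_cases hadj : F.Adj x y
  · exact tri_aux _ _ fun j k hjk => hE x hx y hy hadj j k hjk
  · have key : ∀ i j k, i ≠ j → j ≠ k → i ≠ k → (T i x ∩ T i y).Nonempty →
        T j x ⊆ T j y ∨ T k y ⊆ T k x := fun i j k hij hjk hik hs =>
      hP x hx y hy hxy hadj i j k hij hik hjk hs
    have share : ∀ l, (T l x ⊆ T l y ∨ T l y ⊆ T l x) → (T l x ∩ T l y).Nonempty := by
      intro l hl
      rcases hl with hl | hl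
      · obtain ⟨t, ht⟩ := hf x hx l
        exact ⟨t, Finset.mem_inter.2 ⟨ht, hl ht⟩⟩
      · obtain ⟨t, ht⟩ := hf y hy l
        exact ⟨t, Finset.mem_inter.2 ⟨hl ht, ht⟩⟩
    have hsh : ∃ i, (T i x ∩ T i y).Nonempty := by
      rcases h with h | h
      · exact absurd h hadj
      · exact h
    apply tri_aux
    intro j k hjk
    obtain ⟨i, hij, hik, hall⟩ := exists_other j k hjk
    by_cases hi : (T i x ∩ T i y).Nonempty
    · exact key i j k hij hjk hik hi
    · have hA : ¬ T i x ⊆ T i y := fun h' => hi (share i (Or.inl h'))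
      have hB : ¬ T i y ⊆ T i x := fun h' => hi (share i (Or.inr h'))
      obtain ⟨l, hl⟩ := hsh
      rcases hall l with h' | h' | h'
      · rw [h'] at hl
        exact absurd hl hi
      · rw [h'] at hl
        rcases key j i k hij.symm hik hjk hl with h'' | h''
        · exact absurd h'' hA
        · exact Or.inr h''
      · rw [h'] at hl
        rcases key k j i hjk.symm hij.symm hik.symm hl with h'' | h''
        · exact Or.inl h''
        · exact absurd h'' hB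

/-- A small piece which is unrelated to the rest. -/
theorem exists_piece (F : SimpleGraph V) (X : Finset V) (T : Fin 3 → V → Finset V)
    (f : Fin 3 → V → V) (hf : ∀ x ∈ X, ∀ j, f j x ∈ T j x)
    (hE : ∀ x ∈ X, ∀ y ∈ X, F.Adj x y → ∀ i j, i ≠ j → T i x ⊆ T i y ∨ T j y ⊆ T j x)
    (hP : ∀ x ∈ X, ∀ y ∈ X, x ≠ y → ¬ F.Adj x y → ∀ i j k, i ≠ j → i ≠ k → j ≠ k →
      (T i x ∩ T i y).Nonempty → T j x ⊆ T j y ∨ T k y ⊆ T k x)
    (d : ℕ) (hd : ∀ x ∈ X, ∀ j, (X.filter fun y => f j y ∈ T j x).card ≤ d)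
    (X' : Finset V) (hX' : X' ⊆ X) (hne : X'.Nonempty) :
    ∃ P ⊆ X', P.Nonempty ∧ P.card ≤ 2 * d ∧ ∀ y ∈ P, ∀ z ∈ X' \ P, ¬ Rel F T y z := by
  have htri := trichotomy F X T (fun x hx l => ⟨_, hf x hx l⟩) hE hP
  obtain ⟨x, hx, hmax⟩ := Finset.exists_max_image X' (fun y => ∑ l, (T l y).card) hne
  set P := X'.filter fun y => y = x ∨ Rel F T y x with hPdef
  have hK : ∀ y ∈ P, ∃ j, ∀ l, l ≠ j → T l y ⊆ T l x := by
    intro y hy
    rw [hPdef, Finset.mem_filter] at hy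
    obtain ⟨hy, h | h⟩ := hy
    · subst h
      exact ⟨0, fun l _ => Finset.Subset.refl _⟩
    · rcases htri y x (hX' hy) (hX' hx) h with h1 | h1 | ⟨j, h1⟩
      · exact ⟨0, fun l _ => h1 l⟩
      · refine ⟨0, fun l _ => ?_⟩
        have hle : ∀ l, (T l x).card ≤ (T l y).card := fun l => Finset.card_le_card (h1 l)
        have hsum : ∑ l, (T l y).card ≤ ∑ l, (T l x).card := hmax y hy
        have heq : ∑ l, (T l x).card = ∑ l, (T l y).card :=
          le_antisymm (Finset.sum_le_sum fun l _ => hle l) hsum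
        have := (Finset.sum_eq_sum_iff_of_le fun l _ => hle l).1 heq l (Finset.mem_univ l)
        exact (Finset.eq_of_subset_of_card_le (h1 l) this.ge).symm.subset
      · exact ⟨j, fun l hl => (h1 l hl).1⟩
  refine ⟨P, Finset.filter_subset _ _, ⟨x, by simp [hPdef, hx]⟩, ?_, ?_⟩
  · have hsub : P ⊆ (X.filter fun y => f 0 y ∈ T 0 x) ∪ (X.filter fun y => f 1 y ∈ T 1 x) := by
      intro y hy
      have hyX : y ∈ X := hX' (Finset.mem_of_mem_filter y hy)
      obtain ⟨j, hj⟩ := hK y hy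
      by_cases hj0 : j = 0
      · have := hj 1 (by rw [hj0]; decide) (hf y hyX 1)
        simp [hyX, this]
      · have := hj 0 (fun h => hj0 h.symm) (hf y hyX 0)
        simp [hyX, this]
    calc P.card ≤ _ := Finset.card_le_card hsub
      _ ≤ _ := Finset.card_union_le _ _
      _ ≤ 2 * d := by
        have h0 := hd x (hX' hx) 0
        have h1 := hd x (hX' hx) 1
        omega
  · intro y hy z hz hrel
    rw [Finset.mem_sdiff] at hz
    apply hz.2
    have hyX' : y ∈ X' := Finset.mem_of_mem_filter y hy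
    have hyX : y ∈ X := hX' hyX'
    have hzX : z ∈ X := hX' hz.1
    obtain ⟨j, hj⟩ := hK y hy
    have hgoal : ∀ t l, t ∈ T l z → t ∈ T l x → z ∈ P := by
      intro t l h1 h2
      rw [hPdef, Finset.mem_filter]
      exact ⟨hz.1, Or.inr (Or.inr ⟨l, t, Finset.mem_inter.2 ⟨h1, h2⟩⟩)⟩
    rcases htri y z hyX hzX hrel with h1 | h1 | ⟨j', h1⟩
    · obtain ⟨l, hl, -⟩ := exists_third j j
      exact hgoal (f l y) l (h1 l (hf y hyX l)) (hj l hl (hf y hyX l))
    · obtain ⟨l, hl, -⟩ := exists_third j j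
      exact hgoal (f l z) l (hf z hzX l) (hj l hl (h1 l (hf z hzX l)))
    · obtain ⟨l, hl, hl'⟩ : ∃ l : Fin 3, l ≠ j ∧ l ≠ j' := exists_third j j'
      exact hgoal (f l y) l ((h1 l hl').1 (hf y hyX l)) (hj l hl (hf y hyX l))

/-- Collecting pieces. -/
theorem exists_bundle (R : V → V → Prop) (X : Finset V) (m : ℕ)
    (h : ∀ X' ⊆ X, X'.Nonempty → ∃ P ⊆ X', P.Nonempty ∧ P.card ≤ m ∧
      ∀ y ∈ P, ∀ z ∈ X' \ P, ¬ R y z) (k : ℕ) :
    ∀ X' ⊆ X, k ≤ X'.card → ∃ B ⊆ X', k ≤ B.card ∧ B.card ≤ k + m ∧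
      ∀ y ∈ B, ∀ z ∈ X' \ B, ¬ R y z := by
  induction k using Nat.strong_induction_on with
  | _ k ih =>
    intro X' hX' hk
    rcases Nat.eq_zero_or_pos k with hk0 | hk0
    · exact ⟨∅, by simp, by simp [hk0], by simp, by simp⟩
    · have hne : X'.Nonempty := by
        rw [← Finset.card_pos]
        omega
      obtain ⟨P, hP, hPne, hPc, hPr⟩ := h X' hX' hne
      have hPpos : 0 < P.card := Finset.card_pos.2 hPne
      by_cases hkP : k ≤ P.card
      · exact ⟨P, hP, hkP, by omega, hPr⟩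
      · push Not at hkP
        obtain ⟨B, hB, hB1, hB2, hB3⟩ := ih (k - P.card) (by omega) (X' \ P)
          (Finset.sdiff_subset.trans hX') (by rw [Finset.card_sdiff_of_subset hP]; omega)
        have hdis : Disjoint P B := by
          rw [Finset.disjoint_left]
          intro a ha ha'
          exact (Finset.mem_sdiff.1 (hB ha')).2 ha
        refine ⟨P ∪ B, Finset.union_subset hP (hB.trans Finset.sdiff_subset), ?_, ?_, ?_⟩
        · rw [Finset.card_union_of_disjoint hdis]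
          omega
        · rw [Finset.card_union_of_disjoint hdis]
          omega
        · intro y hy z hz
          rw [Finset.mem_sdiff, Finset.mem_union, not_or] at hz
          rw [Finset.mem_union] at hy
          rcases hy with hy | hy
          · exact hPr y hy z (Finset.mem_sdiff.2 ⟨hz.1, hz.2.1⟩)
          · exact hB3 y hy z
              (Finset.mem_sdiff.2 ⟨Finset.mem_sdiff.2 ⟨hz.1, hz.2.1⟩, hz.2.2⟩)

end Bundles

open Bundles

/-- PD-9: `T j x` are the leaves of `x` at the hub `j`; no gadget E, no gadget P. -/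
theorem exists_bundles (F : SimpleGraph V) (X : Finset V) (T : Fin 3 → V → Finset V)
    (f : Fin 3 → V → V) (hf : ∀ x ∈ X, ∀ j, f j x ∈ T j x)
    (hE : ∀ x ∈ X, ∀ y ∈ X, F.Adj x y → ∀ i j, i ≠ j → T i x ⊆ T i y ∨ T j y ⊆ T j x)
    (hP : ∀ x ∈ X, ∀ y ∈ X, x ≠ y → ¬ F.Adj x y → ∀ i j k, i ≠ j → i ≠ k → j ≠ k →
      (T i x ∩ T i y).Nonempty → T j x ⊆ T j y ∨ T k y ⊆ T k x)
    (k d : ℝ) (hd0 : 0 ≤ d) (hd : ∀ x ∈ X, ∀ j, ((X.filter fun y => f j y ∈ T j x).card : ℝ) ≤ d)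
    (hk : 0 ≤ k) (hX : 3 * k + 6 * d + 3 ≤ X.card) :
    ∃ Y : Fin 3 → Finset V, (∀ κ, Y κ ⊆ X) ∧ (∀ κ, k ≤ (Y κ).card) ∧
      ∀ κ κ', κ ≠ κ' → ∀ x ∈ Y κ, ∀ y ∈ Y κ', x ≠ y ∧ ¬ F.Adj x y ∧ ∀ j, Disjoint (T j x) (T j y)
    := by
  obtain ⟨k', hk', hk''⟩ : ∃ k' : ℕ, k ≤ k' ∧ (k' : ℝ) < k + 1 :=
    ⟨⌈k⌉₊, Nat.le_ceil k, Nat.ceil_lt_add_one hk⟩
  have hd' : ∀ x ∈ X, ∀ j, (X.filter fun y => f j y ∈ T j x).card ≤ ⌊d⌋₊ :=
    fun x hx j => Nat.le_floor (hd x hx j)
  have hfl : ((⌊d⌋₊ : ℕ) : ℝ) ≤ d := Nat.floor_le hd0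
  have hXn : 3 * k' + 4 * ⌊d⌋₊ ≤ X.card := by
    have : ((3 * k' + 4 * ⌊d⌋₊ : ℕ) : ℝ) ≤ X.card := by
      push_cast
      linarith
    exact_mod_cast this
  have hb := exists_bundle (Rel F T) X (2 * ⌊d⌋₊) (exists_piece F X T f hf hE hP _ hd') k'
  obtain ⟨B₀, h01, h02, h03, h04⟩ := hb X (Finset.Subset.refl _) (by omega)
  have hc1 : (X \ B₀).card = X.card - B₀.card := Finset.card_sdiff_of_subset h01
  obtain ⟨B₁, h11, h12, h13, h14⟩ := hb (X \ B₀) Finset.sdiff_subset (by omega)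
  have hc2 : ((X \ B₀) \ B₁).card = (X \ B₀).card - B₁.card := Finset.card_sdiff_of_subset h11
  have r01 : ∀ x ∈ B₀, ∀ y ∈ B₁, ¬ Rel F T x y := fun x hx y hy => h04 x hx y (h11 hy)
  have r02 : ∀ x ∈ B₀, ∀ y ∈ (X \ B₀) \ B₁, ¬ Rel F T x y :=
    fun x hx y hy => h04 x hx y (Finset.sdiff_subset hy)
  have r12 : ∀ x ∈ B₁, ∀ y ∈ (X \ B₀) \ B₁, ¬ Rel F T x y := h14
  have hsub : ∀ κ, (![B₀, B₁, (X \ B₀) \ B₁] : Fin 3 → Finset V) κ ⊆ X := by
    intro κ
    fin_cases κ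
    · exact h01
    · exact h11.trans Finset.sdiff_subset
    · exact Finset.sdiff_subset.trans Finset.sdiff_subset
  have hcard : ∀ κ, k' ≤ ((![B₀, B₁, (X \ B₀) \ B₁] : Fin 3 → Finset V) κ).card := by
    intro κ
    fin_cases κ
    · exact h02
    · exact h12
    · change k' ≤ ((X \ B₀) \ B₁).card
      omega
  have hrel : ∀ κ κ', κ ≠ κ' → ∀ x ∈ (![B₀, B₁, (X \ B₀) \ B₁] : Fin 3 → Finset V) κ,
      ∀ y ∈ (![B₀, B₁, (X \ B₀) \ B₁] : Fin 3 → Finset V) κ', ¬ Rel F T x y := by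
    intro i j hij x hx y hy
    fin_cases i <;> fin_cases j
    · exact absurd rfl hij
    · exact r01 x hx y hy
    · exact r02 x hx y hy
    · exact fun h => r01 y hy x hx h.symm
    · exact absurd rfl hij
    · exact r12 x hx y hy
    · exact fun h => r02 y hy x hx h.symm
    · exact fun h => r12 y hy x hx h.symm
    · exact absurd rfl hij
  refine ⟨![B₀, B₁, (X \ B₀) \ B₁], hsub, fun κ => hk'.trans (by exact_mod_cast hcard κ), ?_⟩
  intro κ κ' hne x hx y hy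
  have hr := hrel κ κ' hne x hx y hy
  have hdis : ∀ j, Disjoint (T j x) (T j y) := by
    intro j
    rw [Finset.disjoint_iff_inter_eq_empty, ← Finset.not_nonempty_iff_eq_empty]
    exact fun h => hr (Or.inr ⟨j, h⟩)
  refine ⟨?_, fun h => hr (Or.inl h), hdis⟩
  rintro rfl
  have h1 := hf x (hsub κ hx) 0
  exact (Finset.disjoint_left.1 (hdis 0) h1) h1

end Pool.Agent.Helper32.PD
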