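import Pool.Agent.Helper59.PD.Pieces
import Pool.Agent.Helper59.PD.Bundles

/-!
# The gadget lemma (PD-11a)
-/

set_option autoImplicit false

namespace Pool.Agent.Helper32.PD

open Finset
open scoped Classical

variable {V : Type}

theorem Sys2.gctx {F : SimpleGraph V} {Λ : Type} {I L : Λ → Finset V} {f : Λ → V → V}
    {X O : Finset V} {ξ lam θ : ℝ} {n : ℕ} (S : Sys2 F I L f X O ξ lam θ n)
    {h : Fin 9 → Λ} (hinj : Function.Injective h) {ref : Fin 9 → V} {ref' : Λ → V}
    {W' : Finset V} (h1 : ∀ j, ref j ∈ L (h j)) (h2 : ∀ j, ref j ∈ W')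
    (h3 : ∀ j, ref' (h j) = ref j) : GCtx F I L X O h ref ref' W' where
  X_hub := S.X_hub
  O_hub := S.O_hub
  leaf_anti := S.leaf_anti
  leaf_leaf := S.leaf_leaf
  leaf_adj := S.leaf_adj
  O_leaf := S.O_leaf
  inj := hinj
  refL := h1
  refW := h2
  ref' := h3

/-- a gadget of type E -/
theorem gadget_E {F : SimpleGraph V} {Λ : Type} {I L : Λ → Finset V} {X O : Finset V}
    {h : Fin 9 → Λ} {ref : Fin 9 → V} {ref' : Λ → V} {W' : Finset V} {q : ℕ}
    (hq : q = 2 ∨ q = 3) (C : GCtx F I L X O h ref ref' W') {x y : V} (hx : x ∈ X) (hy : y ∈ X)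
    (hxW : x ∈ W') (hyW : y ∈ W') (hxy : F.Adj x y) {i j a b c d : Fin 9} (hij : i ≠ j)
    (hia : i ≠ a) (hib : i ≠ b) (hab : a ≠ b) (hjc : j ≠ c) (hjd : j ≠ d) (hcd : c ≠ d)
    (h1 : F.Adj x (ref i)) (h2 : ¬ F.Adj y (ref i)) (h3 : F.Adj y (ref j))
    (h4 : ¬ F.Adj x (ref j)) (h5 : F.Adj x (ref a)) (h6 : F.Adj x (ref b))
    (h7 : F.Adj y (ref c)) (h8 : F.Adj y (ref d)) :
    Gadget F I ref' q W' (fun l => ∃ j, l = h j) := by
  intro r
  rcases C.centre r hq hx hxW i a b hia hib hab h1 h5 h6 with g | g | g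
  · exact g
  · rcases C.centre r hq hy hyW j c d hjc hjd hcd h3 h7 h8 with g' | g' | g'
    · exact g'
    · obtain ⟨rfl, g1, -⟩ := g
      obtain ⟨-, g2, -⟩ := g'
      refine Or.inl ⟨_, _, _, _, Nat.mod_lt _ (by norm_num), ?_, ⟨i, rfl⟩, ⟨j, rfl⟩,
        C.linkE r 2 hx hy hxW hyW hxy hij h1 h2 h3 h4⟩
      omega
    · omega
  · rcases C.centre r hq hy hyW j c d hjc hjd hcd h3 h7 h8 with g' | g' | g'
    · exact g'
    · omega
    · obtain ⟨rfl, g1, -⟩ := g
      obtain ⟨-, g2, -⟩ := g'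
      refine Or.inl ⟨_, _, _, _, Nat.mod_lt _ (by norm_num), ?_, ⟨i, rfl⟩, ⟨j, rfl⟩,
        C.linkE r 3 hx hy hxW hyW hxy hij h1 h2 h3 h4⟩
      omega

/-- a gadget of type P -/
theorem gadget_P {F : SimpleGraph V} {Λ : Type} {I L : Λ → Finset V} {X O : Finset V}
    {h : Fin 9 → Λ} {ref : Fin 9 → V} {ref' : Λ → V} {W' : Finset V} {q : ℕ}
    (hq : q = 2 ∨ q = 3) (C : GCtx F I L X O h ref ref' W') {x y : V} (hx : x ∈ X) (hy : y ∈ X)
    (hxW : x ∈ W') (hyW : y ∈ W') (hne : x ≠ y) (hxy : ¬ F.Adj x y) {i j k a b : Fin 9}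
    (hij : i ≠ j) (hik : i ≠ k) (hjk : j ≠ k) (hia : i ≠ a) (hja : j ≠ a) (hib : i ≠ b)
    (hkb : k ≠ b) (h1 : F.Adj x (ref i)) (h2 : F.Adj y (ref i)) (h3 : F.Adj x (ref j))
    (h4 : ¬ F.Adj y (ref j)) (h5 : F.Adj y (ref k)) (h6 : ¬ F.Adj x (ref k))
    (h7 : F.Adj x (ref a)) (h8 : F.Adj y (ref b)) :
    Gadget F I ref' q W' (fun l => ∃ j, l = h j) := by
  intro r
  rcases C.centre r hq hx hxW i j a hij hia hja h1 h3 h7 with g | g | g
  · exact g
  · rcases C.centre r hq hy hyW i k b hik hib hkb h2 h5 h8 with g' | g' | g'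
    · exact g'
    · obtain ⟨rfl, g1, g2, -⟩ := g
      obtain ⟨-, -, g3, -⟩ := g'
      refine Or.inr ⟨rfl, _, _, _, ?_,
        C.clawP r hx hy hxW hyW hne hxy hij hik hjk h1 h2 h3 h4 h5 h6 g1 g2 g3⟩
      intro κ
      fin_cases κ
      · exact ⟨i, rfl⟩
      · exact ⟨j, rfl⟩
      · exact ⟨k, rfl⟩
    · omega
  · rcases C.centre r hq hy hyW i k b hik hib hkb h2 h5 h8 with g' | g' | g'
    · exact g'
    · omega
    · obtain ⟨rfl, g1, g2, -⟩ := g
      obtain ⟨-, -, g3, -⟩ := g'
      refine Or.inl ⟨_, _, _, _, Nat.mod_lt _ (by norm_num), ?_, ⟨j, rfl⟩, ⟨k, rfl⟩,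
        C.linkP r 3 hx hy hxW hyW hne hxy hij hik hjk h1 h2 h3 h4 h5 h6⟩
      omega

/-- a gadget of type O -/
theorem gadget_O {F : SimpleGraph V} {Λ : Type} {I L : Λ → Finset V} {X O : Finset V}
    {h : Fin 9 → Λ} {ref : Fin 9 → V} {ref' : Λ → V} {W' : Finset V} {q : ℕ}
    (hq : q = 2 ∨ q = 3) (C : GCtx F I L X O h ref ref' W') {o : V} (ho : o ∈ O) (hoW : o ∈ W')
    (x : Fin 3 → V) (a b c : Fin 3 → Fin 9) (ha : Function.Injective a)
    (hab : ∀ κ, a κ ≠ b κ) (hac : ∀ κ, a κ ≠ c κ) (hbc : ∀ κ, b κ ≠ c κ)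
    (hx : ∀ κ, x κ ∈ X) (hxW : ∀ κ, x κ ∈ W')
    (hox : ∀ κ, F.Adj o (x κ)) (hxx : ∀ κ κ', κ ≠ κ' → x κ ≠ x κ' ∧ ¬ F.Adj (x κ) (x κ'))
    (h1 : ∀ κ, F.Adj (x κ) (ref (a κ))) (h2 : ∀ κ κ', κ ≠ κ' → ¬ F.Adj (x κ) (ref (a κ')))
    (h3 : ∀ κ, F.Adj (x κ) (ref (b κ))) (h4 : ∀ κ, F.Adj (x κ) (ref (c κ))) :
    Gadget F I ref' q W' (fun l => ∃ j, l = h j) := by
  intro r
  by_cases hall : ∀ κ, (q = 2 ∧ r (h (a κ)) % 2 = 1) ∨ (q = 3 ∧ r (h (a κ)) % 3 = 0)
  · rcases hq with rfl | rfl
    · refine Or.inr ⟨rfl, _, _, _, fun κ => ⟨a κ, rfl⟩,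
        C.clawO r ho hoW x a ha hx hxW hox hxx h1 h2 fun κ => ?_⟩
      rcases hall κ with g | g <;> omega
    · have g0 := hall 0
      have g1 := hall 1
      refine Or.inl ⟨_, _, _, _, Nat.mod_lt _ (by norm_num), ?_, ⟨a 0, rfl⟩, ⟨a 1, rfl⟩,
        C.linkO r 3 (hx 0) (hx 1) ho (hxW 0) (hxW 1) hoW (hxx 0 1 (by decide)).1
          (hxx 0 1 (by decide)).2 (hox 0) (hox 1) (fun e => absurd (ha e) (by decide)) (h1 0)
          (h2 1 0 (by decide)) (h1 1) (h2 0 1 (by decide))⟩
      omega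
  · push Not at hall
    obtain ⟨κ, hκ⟩ := hall
    rcases C.centre r hq (hx κ) (hxW κ) (a κ) (b κ) (c κ) (hab κ) (hac κ) (hbc κ) (h1 κ) (h3 κ)
      (h4 κ) with g | g | g
    · exact g
    · exact absurd g.2.1 (hκ.1 g.1)
    · exact absurd g.2.1 (hκ.2 g.1)

/-- the number of elements of `X` near `W` -/
theorem card_sdiff_le_of_bad {X X' W : Finset V} (B : V → Finset V) (m : ℝ) (K : ℕ)
    (hK : W.card ≤ K) (hm : 0 ≤ m) (hB : ∀ w ∈ W, ((B w).card : ℝ) ≤ m)
    (hsub : X \ X' ⊆ W.biUnion B) (hX' : X' ⊆ X) : (X.card : ℝ) ≤ X'.card + K * m := by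
  have h1 : (X \ X').card = X.card - X'.card := Finset.card_sdiff_of_subset hX'
  have h2 : X'.card ≤ X.card := Finset.card_le_card hX'
  have h3 : (X \ X').card ≤ ∑ w ∈ W, (B w).card :=
    (Finset.card_le_card hsub).trans Finset.card_biUnion_le
  have h4 : ((∑ w ∈ W, (B w).card : ℕ) : ℝ) ≤ K * m := by
    push_cast
    calc ∑ w ∈ W, ((B w).card : ℝ) ≤ ∑ w ∈ W, m := Finset.sum_le_sum hB
      _ = W.card * m := by rw [Finset.sum_const, nsmul_eq_mul]
      _ ≤ K * m := by
        apply mul_le_mul_of_nonneg_right _ hm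
        exact_mod_cast hK
  have h5 : X.card = (X \ X').card + X'.card := by omega
  rw [h5]
  push_cast
  have h6 : ((X \ X').card : ℝ) ≤ ((∑ w ∈ W, (B w).card : ℕ) : ℝ) := by exact_mod_cast h3
  linarith

/-- PD-11a: the gadget lemma: nine fresh hubs `h`, avoiding `W`. -/
theorem exists_gadget (F : SimpleGraph V) {Λ : Type} (I L : Λ → Finset V) (f : Λ → V → V)
    (X O : Finset V) (ξ lam θ : ℝ) (n K q : ℕ) (hn : 1 ≤ n) (hlam : 0 < lam)
    (hq : q = 2 ∨ q = 3) (S : Sys2 F I L f X O ξ lam θ n)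
    (hsmall : 3 * lam + (30 * K + 20) * θ ≤ ξ) (W : Finset V) (hK : W.card ≤ K) (h : Fin 9 → Λ)
    (hinj : Function.Injective h)
    (hW : ∀ w ∈ W, w ∈ X ∨ w ∈ O ∨ ∃ l, (∀ j, l ≠ h j) ∧ w ∈ L l) :
    ∃ (W' : Finset V) (ref : Fin 9 → V), W'.card ≤ 30 ∧
      (∀ w' ∈ W', ∀ w ∈ W, w' ≠ w ∧ ¬ F.Adj w' w) ∧
      (∀ w ∈ W', w ∈ X ∨ w ∈ O ∨ ∃ j, w = ref j) ∧ (∀ j, ref j ∈ L (h j) ∧ ref j ∈ W') ∧
      ∀ ref' : Λ → V, (∀ j, ref' (h j) = ref j) →
        Gadget F I ref' q W' (fun l => ∃ j, l = h j) := by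
  have hn' : (1 : ℝ) ≤ n := by exact_mod_cast hn
  have hn0 : (0 : ℝ) < n := by linarith
  -- sizes
  obtain ⟨v₀, -⟩ := (S.conn (h 0)).1
  have hθn0 : 0 ≤ θ * n := le_trans (Nat.cast_nonneg _) (S.degX v₀)
  have hθ : 0 ≤ θ := by
    by_contra hneg
    push Not at hneg
    have : θ * n < 0 := mul_neg_of_neg_of_pos hneg hn0
    linarith
  have hK0 : (0 : ℝ) ≤ K := Nat.cast_nonneg _
  have hKθ : 0 ≤ (K : ℝ) * (θ * n) := mul_nonneg hK0 hθn0
  have hmul : (3 * lam + (30 * K + 20) * θ) * n ≤ ξ * n :=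
    mul_le_mul_of_nonneg_right hsmall hn0.le
  have hlamn : 0 < lam * n := mul_pos hlam hn0
  have hXpos : 0 < (X.card : ℝ) := by
    have := S.sizeX
    nlinarith
  obtain ⟨x₀, hx₀⟩ : X.Nonempty := by
    rw [← Finset.card_pos]
    exact_mod_cast hXpos
  have hθ1 : 1 ≤ θ * n := by
    refine le_trans ?_ (S.good x₀ hx₀ (h 0))
    have : 0 < (X.filter fun y => F.Adj x₀ (f (h 0) y)).card := by
      rw [Finset.card_pos]
      exact ⟨x₀, Finset.mem_filter.2 ⟨hx₀, (S.f_mem x₀ hx₀ (h 0)).2⟩⟩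
    exact_mod_cast this
  have hX_ne : ∀ x ∈ X, ∀ l, ∀ t ∈ L l, x ≠ t := by
    rintro x hx l t ht rfl
    obtain ⟨y, hy, hadj⟩ := S.leaf_adj l x ht
    exact (S.X_hub x hx l y hy).2 hadj
  -- far from `W`
  set far : V → Prop := fun v => ∀ w ∈ W, v ≠ w ∧ ¬ F.Adj v w with hfar
  set X' := X.filter fun x => far x ∧ ∀ j, far (f (h j) x) with hX'
  have hX'X : X' ⊆ X := Finset.filter_subset _ _
  have hX'card : (X.card : ℝ) ≤ X'.card + K * (11 * (θ * n)) := by
    refine card_sdiff_le_of_bad (fun w => (X.filter fun x => x = w) ∪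
      (X.filter fun x => F.Adj w x) ∪ (univ : Finset (Fin 9)).biUnion fun j =>
        X.filter fun x => w ∈ X ∧ F.Adj w (f (h j) x)) _ K hK (by positivity) ?_ ?_ hX'X
    · intro w hw
      have h1 : ((X.filter fun x => x = w).card : ℝ) ≤ 1 := by
        have : (X.filter fun x => x = w).card ≤ 1 := by
          apply Finset.card_le_one.2
          intro a ha b hb
          rw [Finset.mem_filter] at ha hb
          rw [ha.2, hb.2]
        exact_mod_cast this
      have h2 := S.degX w
      have h3 : ((((univ : Finset (Fin 9)).biUnion fun j =>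
          X.filter fun x => w ∈ X ∧ F.Adj w (f (h j) x)).card : ℕ) : ℝ) ≤ 9 * (θ * n) := by
        have h31 : ∀ j : Fin 9, ((X.filter fun x => w ∈ X ∧ F.Adj w (f (h j) x)).card : ℝ) ≤
            θ * n := by
          intro j
          by_cases hwX : w ∈ X
          · refine le_trans ?_ (S.good w hwX (h j))
            exact_mod_cast Finset.card_le_card fun x hx => by
              rw [Finset.mem_filter] at hx ⊢
              exact ⟨hx.1, hx.2.2⟩
          · simp [hwX, hθn0]
        calc ((((univ : Finset (Fin 9)).biUnion fun j =>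
            X.filter fun x => w ∈ X ∧ F.Adj w (f (h j) x)).card : ℕ) : ℝ)
            ≤ ((∑ j : Fin 9, (X.filter fun x => w ∈ X ∧ F.Adj w (f (h j) x)).card : ℕ) : ℝ) := by
              exact_mod_cast Finset.card_biUnion_le
          _ ≤ ∑ j : Fin 9, θ * n := by
              push_cast
              exact Finset.sum_le_sum fun j _ => h31 j
          _ = 9 * (θ * n) := by simp
      calc _ ≤ (((X.filter fun x => x = w).card + (X.filter fun x => F.Adj w x).card +
            ((univ : Finset (Fin 9)).biUnion fun j =>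
              X.filter fun x => w ∈ X ∧ F.Adj w (f (h j) x)).card : ℕ) : ℝ) := by
            exact_mod_cast (Finset.card_union_le _ _).trans
              (Nat.add_le_add_right (Finset.card_union_le _ _) _)
        _ ≤ 11 * (θ * n) := by
            push_cast
            linarith
    · intro x hx
      rw [Finset.mem_sdiff, hX', Finset.mem_filter, not_and, not_and_or] at hx
      obtain ⟨hxX, hx⟩ := hx
      rw [Finset.mem_biUnion]
      rcases hx hxX with hx | hx
      · rw [hfar] at hx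
        push Not at hx
        obtain ⟨w, hw, hxw⟩ := hx
        refine ⟨w, hw, ?_⟩
        rw [Finset.mem_union, Finset.mem_union, Finset.mem_filter, Finset.mem_filter]
        by_cases hxw' : x = w
        · exact Or.inl (Or.inl ⟨hxX, hxw'⟩)
        · exact Or.inl (Or.inr ⟨hxX, (hxw hxw').symm⟩)
      · push Not at hx
        obtain ⟨j, hx⟩ := hx
        rw [hfar] at hx
        push Not at hx
        obtain ⟨w, hw, hxw⟩ := hx
        refine ⟨w, hw, ?_⟩
        have hfL := (S.f_mem x hxX (h j)).1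
        rw [Finset.mem_union, Finset.mem_biUnion]
        refine Or.inr ⟨j, mem_univ _, ?_⟩
        rw [Finset.mem_filter]
        rcases hW w hw with hwX | hwO | ⟨l, hl, hwL⟩
        · exact ⟨hxX, hwX, (hxw (hX_ne w hwX (h j) _ hfL).symm).symm⟩
        · have := S.O_leaf w hwO (h j) _ hfL
          exact absurd (hxw this.1.symm).symm this.2
        · have := S.leaf_leaf (h j) l (hl j).symm _ hfL w hwL
          exact absurd (hxw this.1) this.2
  set O' := O.filter far with hO'
  have hO'O : O' ⊆ O := Finset.filter_subset _ _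
  have hO'card : (O.card : ℝ) ≤ O'.card + K * (2 * (θ * n)) := by
    refine card_sdiff_le_of_bad (fun w => (O.filter fun x => x = w) ∪
      (O.filter fun x => F.Adj w x)) _ K hK (by positivity) ?_ ?_ hO'O
    · intro w hw
      have h1 : ((O.filter fun x => x = w).card : ℝ) ≤ 1 := by
        have : (O.filter fun x => x = w).card ≤ 1 := by
          apply Finset.card_le_one.2
          intro a ha b hb
          rw [Finset.mem_filter] at ha hb
          rw [ha.2, hb.2]
        exact_mod_cast this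
      have h2 := S.degO w
      calc _ ≤ (((O.filter fun x => x = w).card + (O.filter fun x => F.Adj w x).card : ℕ) : ℝ) := by
            exact_mod_cast Finset.card_union_le _ _
        _ ≤ 2 * (θ * n) := by
            push_cast
            linarith
    · intro x hx
      rw [Finset.mem_sdiff, hO', Finset.mem_filter, not_and] at hx
      obtain ⟨hxX, hx⟩ := hx
      have hx := hx hxX
      rw [hfar] at hx
      push Not at hx
      obtain ⟨w, hw, hxw⟩ := hx
      rw [Finset.mem_biUnion]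
      refine ⟨w, hw, ?_⟩
      rw [Finset.mem_union, Finset.mem_filter, Finset.mem_filter]
      by_cases hxw' : x = w
      · exact Or.inl ⟨hxX, hxw'⟩
      · exact Or.inr ⟨hxX, (hxw hxw').symm⟩
  -- the traces
  set e : Fin 3 → Fin 9 := Fin.castLE (by norm_num) with he
  have he3 : ∀ i : Fin 3, ∀ m : Fin 9, 3 ≤ m → e i ≠ m := by
    intro i m hm hcon
    have h1 : (e i).val = i.val := rfl
    have h2 : (3 : ℕ) ≤ m.val := hm
    rw [← hcon, h1] at h2
    omega
  have heinj : ∀ i j : Fin 3, i ≠ j → e i ≠ e j := by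
    intro i j hij hcon
    apply hij
    have h1 : (e i).val = i.val := rfl
    have h2 : (e j).val = j.val := rfl
    rw [hcon, h2] at h1
    exact (Fin.ext h1).symm
  set T : Fin 3 → V → Finset V := fun j x => (L (h (e j))).filter fun t => F.Adj x t ∧ far t
    with hT
  have hmemT : ∀ j x t, t ∈ T j x ↔ t ∈ L (h (e j)) ∧ F.Adj x t ∧ far t := by
    intro j x t
    rw [hT]
    exact Finset.mem_filter
  have hX'1 : ∀ x ∈ X', x ∈ X ∧ far x ∧ ∀ j, far (f (h j) x) := fun x hx => by
    rw [hX', Finset.mem_filter] at hx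
    exact hx
  have hnotT : ∀ j x y t, t ∈ T j x → t ∉ T j y → ¬ F.Adj y t := by
    intro j x y t h1 h2 h3
    rw [hmemT] at h1 h2
    exact h2 ⟨h1.1, h3, h1.2.2⟩
  have hcardim : ∀ (A : Finset V) (ref : Fin 9 → V), A.card ≤ 4 →
      (A ∪ univ.image ref).card ≤ 30 := by
    intro A ref hA
    have h1 : (univ.image ref).card ≤ 9 := Finset.card_image_le.trans (by simp)
    have h2 := Finset.card_union_le A (univ.image ref)
    omega
  by_cases hE : ∀ x ∈ X', ∀ y ∈ X', F.Adj x y → ∀ i j, i ≠ j → T i x ⊆ T i y ∨ T j y ⊆ T j x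
  swap
  · push Not at hE
    obtain ⟨x, hx, y, hy, hxy, i, j, hij, hs, ht⟩ := hE
    obtain ⟨s, hs, hs'⟩ := Finset.not_subset.1 hs
    obtain ⟨t, ht, ht'⟩ := Finset.not_subset.1 ht
    have hsy := hnotT i x y s hs hs'
    have htx := hnotT j y x t ht ht'
    rw [hmemT] at hs ht
    obtain ⟨hxX, hxfar, hxf⟩ := hX'1 x hx
    obtain ⟨hyX, hyfar, hyf⟩ := hX'1 y hy
    have hxm := fun l => S.f_mem x hxX l
    have hym := fun l => S.f_mem y hyX l
    set ref : Fin 9 → V := fun m => if m = e i then s else if m = e j then t else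
      if m = 5 ∨ m = 6 then f (h m) y else f (h m) x with href
    have r1 : ref (e i) = s := by simp [href]
    have r2 : ref (e j) = t := by simp [href, (heinj i j hij).symm]
    have r3 : ref 3 = f (h 3) x := by
      simp [href, (he3 i 3 (by decide)).symm, (he3 j 3 (by decide)).symm]
    have r4 : ref 4 = f (h 4) x := by
      simp [href, (he3 i 4 (by decide)).symm, (he3 j 4 (by decide)).symm]
    have r5 : ref 5 = f (h 5) y := by
      simp [href, (he3 i 5 (by decide)).symm, (he3 j 5 (by decide)).symm]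
    have r6 : ref 6 = f (h 6) y := by
      simp [href, (he3 i 6 (by decide)).symm, (he3 j 6 (by decide)).symm]
    have refL : ∀ m, ref m ∈ L (h m) := by
      intro m
      by_cases m1 : m = e i
      · rw [m1, r1]
        exact hs.1
      by_cases m2 : m = e j
      · rw [m2, r2]
        exact ht.1
      by_cases m3 : m = 5 ∨ m = 6
      · simp only [href, m1, m2, m3, if_true, if_false]
        exact (hym _).1
      · simp only [href, m1, m2, m3, if_false]
        exact (hxm _).1
    have reffar : ∀ m, far (ref m) := by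
      intro m
      by_cases m1 : m = e i
      · rw [m1, r1]
        exact hs.2.2
      by_cases m2 : m = e j
      · rw [m2, r2]
        exact ht.2.2
      by_cases m3 : m = 5 ∨ m = 6
      · simp only [href, m1, m2, m3, if_true, if_false]
        exact hyf m
      · simp only [href, m1, m2, m3, if_false]
        exact hxf m
    have refW : ∀ m, ref m ∈ ({x, y} : Finset V) ∪ univ.image ref := fun m =>
      Finset.mem_union_right _ (Finset.mem_image_of_mem _ (mem_univ _))
    refine ⟨{x, y} ∪ univ.image ref, ref, hcardim _ _ ?_, ?_, ?_, fun m => ⟨refL m, refW m⟩, ?_⟩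
    · exact (Finset.card_le_two).trans (by norm_num)
    · intro w' hw' w hw
      rw [Finset.mem_union, Finset.mem_image, Finset.mem_insert, Finset.mem_singleton] at hw'
      rcases hw' with (rfl | rfl) | ⟨m, -, rfl⟩
      · exact hxfar w hw
      · exact hyfar w hw
      · exact reffar m w hw
    · intro w' hw'
      rw [Finset.mem_union, Finset.mem_image, Finset.mem_insert, Finset.mem_singleton] at hw'
      rcases hw' with (rfl | rfl) | ⟨m, -, rfl⟩
      · exact Or.inl hxX
      · exact Or.inl hyX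
      · exact Or.inr (Or.inr ⟨m, rfl⟩)
    · intro ref' href'
      have C := S.gctx hinj refL refW href'
      refine gadget_E hq C hxX hyX (by simp) (by simp) hxy (heinj i j hij) (he3 i 3 (by decide))
        (he3 i 4 (by decide)) (by decide) (he3 j 5 (by decide)) (he3 j 6 (by decide)) (by decide)
        ?_ ?_ ?_ ?_ ?_ ?_ ?_ ?_
      · rw [r1]
        exact hs.2.1
      · rw [r1]
        exact hsy
      · rw [r2]
        exact ht.2.1
      · rw [r2]
        exact htx
      · rw [r3]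
        exact (hxm _).2
      · rw [r4]
        exact (hxm _).2
      · rw [r5]
        exact (hym _).2
      · rw [r6]
        exact (hym _).2
  by_cases hP : ∀ x ∈ X', ∀ y ∈ X', x ≠ y → ¬ F.Adj x y → ∀ i j k, i ≠ j → i ≠ k → j ≠ k →
      (T i x ∩ T i y).Nonempty → T j x ⊆ T j y ∨ T k y ⊆ T k x
  swap
  · push Not at hP
    obtain ⟨x, hx, y, hy, hxney, hxy, i, j, k, hij, hik, hjk, ⟨s, hs⟩, ht, ht'⟩ := hP
    obtain ⟨t, ht1, ht2⟩ := Finset.not_subset.1 ht
    obtain ⟨t', ht'1, ht'2⟩ := Finset.not_subset.1 ht'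
    have hty := hnotT j x y t ht1 ht2
    have htx := hnotT k y x t' ht'1 ht'2
    rw [Finset.mem_inter, hmemT, hmemT] at hs
    rw [hmemT] at ht1 ht'1
    obtain ⟨hxX, hxfar, hxf⟩ := hX'1 x hx
    obtain ⟨hyX, hyfar, hyf⟩ := hX'1 y hy
    have hxm := fun l => S.f_mem x hxX l
    have hym := fun l => S.f_mem y hyX l
    set ref : Fin 9 → V := fun m => if m = e i then s else if m = e j then t else
      if m = e k then t' else if m = 5 then f (h m) y else f (h m) x with href
    have r1 : ref (e i) = s := by simp [href]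
    have r2 : ref (e j) = t := by simp [href, (heinj i j hij).symm]
    have r3 : ref (e k) = t' := by simp [href, (heinj i k hik).symm, (heinj j k hjk).symm]
    have r4 : ref 3 = f (h 3) x := by
      simp [href, (he3 i 3 (by decide)).symm, (he3 j 3 (by decide)).symm,
        (he3 k 3 (by decide)).symm]
    have r5 : ref 5 = f (h 5) y := by
      simp [href, (he3 i 5 (by decide)).symm, (he3 j 5 (by decide)).symm,
        (he3 k 5 (by decide)).symm]
    have refL : ∀ m, ref m ∈ L (h m) := by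
      intro m
      by_cases m1 : m = e i
      · rw [m1, r1]
        exact hs.1.1
      by_cases m2 : m = e j
      · rw [m2, r2]
        exact ht1.1
      by_cases m3 : m = e k
      · rw [m3, r3]
        exact ht'1.1
      by_cases m4 : m = 5
      · rw [m4, r5]
        exact (hym _).1
      · simp only [href, m1, m2, m3, m4, if_false]
        exact (hxm _).1
    have reffar : ∀ m, far (ref m) := by
      intro m
      by_cases m1 : m = e i
      · rw [m1, r1]
        exact hs.1.2.2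
      by_cases m2 : m = e j
      · rw [m2, r2]
        exact ht1.2.2
      by_cases m3 : m = e k
      · rw [m3, r3]
        exact ht'1.2.2
      by_cases m4 : m = 5
      · rw [m4, r5]
        exact hyf 5
      · simp only [href, m1, m2, m3, m4, if_false]
        exact hxf m
    have refW : ∀ m, ref m ∈ ({x, y} : Finset V) ∪ univ.image ref := fun m =>
      Finset.mem_union_right _ (Finset.mem_image_of_mem _ (mem_univ _))
    refine ⟨{x, y} ∪ univ.image ref, ref, hcardim _ _ ?_, ?_, ?_, fun m => ⟨refL m, refW m⟩, ?_⟩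
    · exact (Finset.card_le_two).trans (by norm_num)
    · intro w' hw' w hw
      rw [Finset.mem_union, Finset.mem_image, Finset.mem_insert, Finset.mem_singleton] at hw'
      rcases hw' with (rfl | rfl) | ⟨m, -, rfl⟩
      · exact hxfar w hw
      · exact hyfar w hw
      · exact reffar m w hw
    · intro w' hw'
      rw [Finset.mem_union, Finset.mem_image, Finset.mem_insert, Finset.mem_singleton] at hw'
      rcases hw' with (rfl | rfl) | ⟨m, -, rfl⟩
      · exact Or.inl hxX
      · exact Or.inl hyX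
      · exact Or.inr (Or.inr ⟨m, rfl⟩)
    · intro ref' href'
      have C := S.gctx hinj refL refW href'
      refine gadget_P hq C hxX hyX (by simp) (by simp) hxney hxy (heinj i j hij) (heinj i k hik)
        (heinj j k hjk) (he3 i 3 (by decide)) (he3 j 3 (by decide)) (he3 i 5 (by decide))
        (he3 k 5 (by decide)) ?_ ?_ ?_ ?_ ?_ ?_ ?_ ?_
      · rw [r1]
        exact hs.1.2.1
      · rw [r1]
        exact hs.2.2.1
      · rw [r2]
        exact ht1.2.1
      · rw [r2]
        exact hty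
      · rw [r3]
        exact ht'1.2.1
      · rw [r3]
        exact htx
      · rw [r4]
        exact (hxm _).2
      · rw [r5]
        exact (hym _).2
  -- bundles
  obtain ⟨Y, hYX, hYc, hYr⟩ := exists_bundles F X' T (fun j x => f (h (e j)) x)
    (fun x hx j => by
      obtain ⟨hxX, hxfar, hxf⟩ := hX'1 x hx
      rw [hmemT]
      exact ⟨(S.f_mem x hxX _).1, (S.f_mem x hxX _).2, hxf _⟩) hE hP (lam * n) (θ * n) hθn0
    (fun x hx j => by
      refine le_trans ?_ (S.good x (hX'1 x hx).1 (h (e j)))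
      exact_mod_cast Finset.card_le_card fun y hy => by
        rw [Finset.mem_filter] at hy ⊢
        exact ⟨(hX'1 y hy.1).1, ((hmemT j x _).1 hy.2).2.1⟩) hlamn.le
    (by
      have := S.sizeX
      nlinarith)
  have hbadc : ∀ κ, ((O'.filter fun o => ∀ x ∈ Y κ, ¬ F.Adj o x).card : ℝ) < lam * n := by
    intro κ
    by_contra hcon
    push Not at hcon
    obtain ⟨x, hx, o, ho, hadj⟩ := S.coh (Y κ) ((hYX κ).trans hX'X)
      (O'.filter fun o => ∀ x ∈ Y κ, ¬ F.Adj o x) ((Finset.filter_subset _ _).trans hO'O)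
      (hYc κ) hcon
    rw [Finset.mem_filter] at ho
    exact ho.2 x hx hadj.symm
  obtain ⟨o, hoO', hoY⟩ : ∃ o ∈ O', ∀ κ : Fin 3, ∃ x ∈ Y κ, F.Adj o x := by
    by_contra hcon
    push Not at hcon
    have hsub : O' ⊆ (univ : Finset (Fin 3)).biUnion fun κ =>
        O'.filter fun o => ∀ x ∈ Y κ, ¬ F.Adj o x := by
      intro o ho
      obtain ⟨κ, hκ⟩ := hcon o ho
      rw [Finset.mem_biUnion]
      exact ⟨κ, mem_univ _, Finset.mem_filter.2 ⟨ho, hκ⟩⟩
    have h1 : (O'.card : ℝ) ≤ ∑ κ : Fin 3,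
        ((O'.filter fun o => ∀ x ∈ Y κ, ¬ F.Adj o x).card : ℝ) := by
      exact_mod_cast (Finset.card_le_card hsub).trans Finset.card_biUnion_le
    rw [Fin.sum_univ_three] at h1
    have h2 := hbadc 0
    have h3 := hbadc 1
    have h4 := hbadc 2
    have h5 := S.sizeO
    nlinarith
  choose x hxY hox using hoY
  have hxX' : ∀ κ, x κ ∈ X' := fun κ => hYX κ (hxY κ)
  have hxX : ∀ κ, x κ ∈ X := fun κ => (hX'1 _ (hxX' κ)).1
  have hoO : o ∈ O := hO'O hoO'
  have hofar : far o := (Finset.mem_filter.1 hoO').2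
  set c : Fin 9 → Fin 3 := ![0, 1, 2, 0, 0, 1, 1, 2, 2] with hc
  set ref : Fin 9 → V := fun m => f (h m) (x (c m)) with href
  have refL : ∀ m, ref m ∈ L (h m) := fun m => (S.f_mem _ (hxX _) _).1
  have refadj : ∀ m, F.Adj (x (c m)) (ref m) := fun m => (S.f_mem _ (hxX _) _).2
  have refW : ∀ m, ref m ∈ (insert o (univ.image x) : Finset V) ∪ univ.image ref := fun m =>
    Finset.mem_union_right _ (Finset.mem_image_of_mem _ (mem_univ _))
  have hce : ∀ κ, c (e κ) = κ := by
    intro κ
    fin_cases κ <;> rfl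
  refine ⟨insert o (univ.image x) ∪ univ.image ref, ref, hcardim _ _ ?_, ?_, ?_,
    fun m => ⟨refL m, refW m⟩, ?_⟩
  · have h1 : (univ.image x).card ≤ 3 := Finset.card_image_le.trans (by simp)
    have h2 := Finset.card_insert_le o (univ.image x)
    omega
  · intro w' hw' w hw
    rw [Finset.mem_union, Finset.mem_image, Finset.mem_insert, Finset.mem_image] at hw'
    rcases hw' with (rfl | ⟨κ, -, rfl⟩) | ⟨m, -, rfl⟩
    · exact hofar w hw
    · exact (hX'1 _ (hxX' κ)).2.1 w hw
    · exact (hX'1 _ (hxX' _)).2.2 m w hw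
  · intro w' hw'
    rw [Finset.mem_union, Finset.mem_image, Finset.mem_insert, Finset.mem_image] at hw'
    rcases hw' with (rfl | ⟨κ, -, rfl⟩) | ⟨m, -, rfl⟩
    · exact Or.inr (Or.inl hoO)
    · exact Or.inl (hxX κ)
    · exact Or.inr (Or.inr ⟨m, rfl⟩)
  · intro ref' href'
    have C := S.gctx hinj refL refW href'
    refine gadget_O hq C hoO (by simp) x e ![3, 5, 7] ![4, 6, 8]
      (fun i j hij => by
        by_contra hne
        exact heinj i j hne hij)
      (fun κ => he3 κ _ (by fin_cases κ <;> decide)) (fun κ => he3 κ _ (by fin_cases κ <;> decide))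
      (fun κ => by fin_cases κ <;> decide) hxX
      (fun κ => Finset.mem_union_left _ (Finset.mem_insert_of_mem
        (Finset.mem_image_of_mem _ (mem_univ _)))) hox
      (fun κ κ' hne => ⟨(hYr κ κ' hne _ (hxY κ) _ (hxY κ')).1,
        (hYr κ κ' hne _ (hxY κ) _ (hxY κ')).2.1⟩) ?_ ?_ ?_ ?_
    · intro κ
      have := refadj (e κ)
      rw [hce] at this
      exact this
    · intro κ κ' hne hadj
      have hdis := (hYr κ κ' hne _ (hxY κ) _ (hxY κ')).2.2 κ'
      have hmem : ref (e κ') ∈ T κ' (x κ') := by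
        rw [hmemT]
        refine ⟨refL _, ?_, ?_⟩
        · have := refadj (e κ')
          rw [hce] at this
          exact this
        · exact (hX'1 _ (hxX' _)).2.2 _
      refine Finset.disjoint_left.1 hdis ?_ hmem
      rw [hmemT] at hmem ⊢
      exact ⟨hmem.1, hadj, hmem.2.2⟩
    · intro κ
      fin_cases κ
      · exact refadj 3
      · exact refadj 5
      · exact refadj 7
    · intro κ
      fin_cases κ
      · exact refadj 4
      · exact refadj 6
      · exact refadj 8

end Pool.Agent.Helper32.PD
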