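import Pool.Agent.Helper32.PD.Lists

/-!
# Pieces of the gadgets (for PD-11a)
-/

set_option autoImplicit false

namespace Pool.Agent.Helper32.PD

open Finset
open scoped Classical

variable {V : Type}

theorem ipath_cons {F : SimpleGraph V} {a b : V} {l : List V} (h : IPath F (b :: l))
    (hab : F.Adj a b) (hl : ∀ x ∈ l, a ≠ x ∧ ¬ F.Adj a x) : IPath F (a :: b :: l) := by
  have h1 : IPath F ([a] ++ (b :: l)) := by
    refine ipath_append (ipath_singleton F a) h (by simp) (by simp) fun i j hi hj => ?_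
    simp only [List.length_singleton, Nat.lt_one_iff] at hi
    subst hi
    rcases Nat.eq_zero_or_pos j with hj0 | hj0
    · subst hj0
      simp [hab, hab.ne]
    · obtain ⟨j, rfl⟩ : ∃ j', j = j' + 1 := ⟨j - 1, by omega⟩
      have hj' : j < l.length := by
        simp only [List.length_cons] at hj
        omega
      have h2 := hl l[j] (List.getElem_mem hj')
      simp [h2.1, h2.2]
  simpa using h1

theorem ipath3 {F : SimpleGraph V} {a b c : V} (hab : F.Adj a b) (hbc : F.Adj b c) (hac : a ≠ c)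
    (hac' : ¬ F.Adj a c) : IPath F [a, b, c] :=
  ipath_cons (ipath_pair F hbc) hab (by simp [hac, hac'])

theorem ipath4 {F : SimpleGraph V} {a b c d : V} (h : IPath F [b, c, d]) (hab : F.Adj a b)
    (h1 : a ≠ c) (h1' : ¬ F.Adj a c) (h2 : a ≠ d) (h2' : ¬ F.Adj a d) :
    IPath F [a, b, c, d] :=
  ipath_cons h hab (by simp [h1, h1', h2, h2'])

theorem ipath5 {F : SimpleGraph V} {a b c d e : V} (h : IPath F [b, c, d, e]) (hab : F.Adj a b)
    (h1 : a ≠ c) (h1' : ¬ F.Adj a c) (h2 : a ≠ d) (h2' : ¬ F.Adj a d) (h3 : a ≠ e)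
    (h3' : ¬ F.Adj a e) : IPath F [a, b, c, d, e] :=
  ipath_cons h hab (by simp [h1, h1', h2, h2', h3, h3'])

/-- The common situation of all gadgets. -/
structure GCtx (F : SimpleGraph V) {Λ : Type} (I L : Λ → Finset V) (X O : Finset V)
    (h : Fin 9 → Λ) (ref : Fin 9 → V) (ref' : Λ → V) (W' : Finset V) : Prop where
  X_hub : ∀ x ∈ X, ∀ l, ∀ y ∈ I l, x ≠ y ∧ ¬ F.Adj x y
  O_hub : ∀ x ∈ O, ∀ l, ∀ y ∈ I l, x ≠ y ∧ ¬ F.Adj x y
  leaf_anti : ∀ l l', l ≠ l' → ∀ t ∈ L l, ∀ y ∈ I l', t ≠ y ∧ ¬ F.Adj t y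
  leaf_leaf : ∀ l l', l ≠ l' → ∀ t ∈ L l, ∀ t' ∈ L l', t ≠ t' ∧ ¬ F.Adj t t'
  leaf_adj : ∀ l, ∀ t ∈ L l, ∃ y ∈ I l, F.Adj t y
  O_leaf : ∀ x ∈ O, ∀ l, ∀ t ∈ L l, x ≠ t ∧ ¬ F.Adj x t
  inj : Function.Injective h
  refL : ∀ j, ref j ∈ L (h j)
  refW : ∀ j, ref j ∈ W'
  ref' : ∀ j, ref' (h j) = ref j

namespace GCtx

variable {F : SimpleGraph V} {Λ : Type} {I L : Λ → Finset V} {X O : Finset V} {h : Fin 9 → Λ}
  {ref : Fin 9 → V} {ref' : Λ → V} {W' : Finset V} (C : GCtx F I L X O h ref ref' W')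

include C

theorem ref_ne {i j : Fin 9} (hij : i ≠ j) : ref i ≠ ref j ∧ ¬ F.Adj (ref i) (ref j) :=
  C.leaf_leaf (h i) (h j) (fun e => hij (C.inj e)) _ (C.refL i) _ (C.refL j)

theorem X_ne_ref {x : V} (hx : x ∈ X) (j : Fin 9) : x ≠ ref j := by
  rintro rfl
  obtain ⟨y, hy, hadj⟩ := C.leaf_adj (h j) _ (C.refL j)
  exact (C.X_hub _ hx (h j) y hy).2 hadj

theorem hub_X {x : V} (hx : x ∈ X) (i : Fin 9) : ∀ y ∈ I (h i), F.Adj x y → x = ref' (h i) :=
  fun y hy hadj => absurd hadj (C.X_hub x hx (h i) y hy).2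

theorem hub_O {x : V} (hx : x ∈ O) (i : Fin 9) : ∀ y ∈ I (h i), F.Adj x y → x = ref' (h i) :=
  fun y hy hadj => absurd hadj (C.O_hub x hx (h i) y hy).2

theorem hub_ref (j i : Fin 9) : ∀ y ∈ I (h i), F.Adj (ref j) y → ref j = ref' (h i) := by
  intro y hy hadj
  by_cases hij : j = i
  · rw [hij, C.ref' i]
  · exact absurd hadj (C.leaf_anti (h j) (h i) (fun e => hij (C.inj e)) _ (C.refL j) y hy).2

/-- link through one centre -/
theorem link1 (r : Λ → ℕ) (q : ℕ) {x : V} (hx : x ∈ X) (hxW : x ∈ W') {a b : Fin 9}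
    (hab : a ≠ b) (ha : F.Adj x (ref a)) (hb : F.Adj x (ref b)) :
    LinkPiece F I ref' r q ((5 + r (h a) + r (h b)) % q) W' (h a) (h b) [ref a, x, ref b] where
  ne := fun e => hab (C.inj e)
  path := ipath3 ha.symm hb (C.ref_ne hab).1 (C.ref_ne hab).2
  head := by simp [C.ref' a]
  last := by simp [C.ref' b]
  mem := by
    intro v hv
    simp only [List.mem_cons, List.not_mem_nil, or_false] at hv
    rcases hv with rfl | rfl | rfl
    · exact C.refW a
    · exact hxW
    · exact C.refW b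
  len := by
    congr 1
    simp only [List.length_cons, List.length_nil]
    ring
  hub := by
    intro v hv
    simp only [List.mem_cons, List.not_mem_nil, or_false] at hv
    rcases hv with rfl | rfl | rfl
    · exact C.hub_ref a a
    · exact C.hub_X hx a
    · exact C.hub_ref b a
  hub' := by
    intro v hv
    simp only [List.mem_cons, List.not_mem_nil, or_false] at hv
    rcases hv with rfl | rfl | rfl
    · exact C.hub_ref a b
    · exact C.hub_X hx b
    · exact C.hub_ref b b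

/-- claw at one centre -/
theorem claw1 (r : Λ → ℕ) {x : V} (hx : x ∈ X) (hxW : x ∈ W') (a : Fin 3 → Fin 9)
    (ha : Function.Injective a) (hadj : ∀ κ, F.Adj x (ref (a κ)))
    (hr : ∀ κ, r (h (a κ)) % 2 = 0) :
    ClawPiece F I ref' r W' x (fun κ => h (a κ)) (fun κ => [ref (a κ)]) where
  inj := fun κ κ' e => ha (C.inj e)
  path := fun κ => ipath_pair F (hadj κ)
  last := fun κ => by simp [C.ref' (a κ)]
  mem := hxW
  mem' := by
    intro κ v hv
    rw [List.mem_singleton] at hv
    rw [hv]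
    exact C.refW (a κ)
  len := by
    intro κ
    have := hr κ
    simp only [List.length_singleton]
    omega
  anti := by
    intro κ κ' hne x hx y hy
    rw [List.mem_singleton] at hx hy
    rw [hx, hy]
    exact C.ref_ne fun e => hne (ha e)
  hub := fun κ y hy hxy => C.hub_X hx (a κ) y hy hxy
  hub' := by
    intro κ κ' v hv y hy hvy
    rw [List.mem_singleton] at hv
    subst hv
    exact C.hub_ref (a κ') (a κ) y hy hvy

/-- link of type E -/
theorem linkE (r : Λ → ℕ) (q : ℕ) {x y : V} (hx : x ∈ X) (hy : y ∈ X) (hxW : x ∈ W')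
    (hyW : y ∈ W') (hxy : F.Adj x y) {i j : Fin 9} (hij : i ≠ j) (h1 : F.Adj x (ref i))
    (h2 : ¬ F.Adj y (ref i)) (h3 : F.Adj y (ref j)) (h4 : ¬ F.Adj x (ref j)) :
    LinkPiece F I ref' r q ((6 + r (h i) + r (h j)) % q) W' (h i) (h j)
      [ref i, x, y, ref j] where
  ne := fun e => hij (C.inj e)
  path := ipath4 (ipath3 hxy h3 (C.X_ne_ref hx j) h4) h1.symm (C.X_ne_ref hy i).symm
    (fun e => h2 e.symm) (C.ref_ne hij).1 (C.ref_ne hij).2
  head := by simp [C.ref' i]
  last := by simp [C.ref' j]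
  mem := by
    intro v hv
    simp only [List.mem_cons, List.not_mem_nil, or_false] at hv
    rcases hv with rfl | rfl | rfl | rfl
    · exact C.refW i
    · exact hxW
    · exact hyW
    · exact C.refW j
  len := by
    congr 1
    simp only [List.length_cons, List.length_nil]
    ring
  hub := by
    intro v hv
    simp only [List.mem_cons, List.not_mem_nil, or_false] at hv
    rcases hv with rfl | rfl | rfl | rfl
    · exact C.hub_ref i i
    · exact C.hub_X hx i
    · exact C.hub_X hy i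
    · exact C.hub_ref j i
  hub' := by
    intro v hv
    simp only [List.mem_cons, List.not_mem_nil, or_false] at hv
    rcases hv with rfl | rfl | rfl | rfl
    · exact C.hub_ref i j
    · exact C.hub_X hx j
    · exact C.hub_X hy j
    · exact C.hub_ref j j

/-- link of type P -/
theorem linkP (r : Λ → ℕ) (q : ℕ) {x y : V} (hx : x ∈ X) (hy : y ∈ X) (hxW : x ∈ W')
    (hyW : y ∈ W') (hne : x ≠ y) (hxy : ¬ F.Adj x y) {i j k : Fin 9} (hij : i ≠ j) (hik : i ≠ k)
    (hjk : j ≠ k) (h1 : F.Adj x (ref i)) (h2 : F.Adj y (ref i)) (h3 : F.Adj x (ref j))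
    (h4 : ¬ F.Adj y (ref j)) (h5 : F.Adj y (ref k)) (h6 : ¬ F.Adj x (ref k)) :
    LinkPiece F I ref' r q ((7 + r (h j) + r (h k)) % q) W' (h j) (h k)
      [ref j, x, ref i, y, ref k] where
  ne := fun e => hjk (C.inj e)
  path := ipath5 (ipath4 (ipath3 h2.symm h5 (C.ref_ne hik).1 (C.ref_ne hik).2) h1 hne hxy
    (C.X_ne_ref hx k) h6) h3.symm (C.ref_ne hij).1.symm (fun e => (C.ref_ne hij).2 e.symm)
    (C.X_ne_ref hy j).symm (fun e => h4 e.symm) (C.ref_ne hjk).1 (C.ref_ne hjk).2
  head := by simp [C.ref' j]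
  last := by simp [C.ref' k]
  mem := by
    intro v hv
    simp only [List.mem_cons, List.not_mem_nil, or_false] at hv
    rcases hv with rfl | rfl | rfl | rfl | rfl
    · exact C.refW j
    · exact hxW
    · exact C.refW i
    · exact hyW
    · exact C.refW k
  len := by
    congr 1
    simp only [List.length_cons, List.length_nil]
    ring
  hub := by
    intro v hv
    simp only [List.mem_cons, List.not_mem_nil, or_false] at hv
    rcases hv with rfl | rfl | rfl | rfl | rfl
    · exact C.hub_ref j j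
    · exact C.hub_X hx j
    · exact C.hub_ref i j
    · exact C.hub_X hy j
    · exact C.hub_ref k j
  hub' := by
    intro v hv
    simp only [List.mem_cons, List.not_mem_nil, or_false] at hv
    rcases hv with rfl | rfl | rfl | rfl | rfl
    · exact C.hub_ref j k
    · exact C.hub_X hx k
    · exact C.hub_ref i k
    · exact C.hub_X hy k
    · exact C.hub_ref k k

/-- claw of type P -/
theorem clawP (r : Λ → ℕ) {x y : V} (hx : x ∈ X) (hy : y ∈ X) (hxW : x ∈ W')
    (hyW : y ∈ W') (hne : x ≠ y) (hxy : ¬ F.Adj x y) {i j k : Fin 9} (hij : i ≠ j) (hik : i ≠ k)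
    (hjk : j ≠ k) (h1 : F.Adj x (ref i)) (h2 : F.Adj y (ref i)) (h3 : F.Adj x (ref j))
    (h4 : ¬ F.Adj y (ref j)) (h5 : F.Adj y (ref k)) (h6 : ¬ F.Adj x (ref k))
    (hi : r (h i) % 2 = 1) (hj : r (h j) % 2 = 1) (hk : r (h k) % 2 = 1) :
    ClawPiece F I ref' r W' (ref i) ![h i, h j, h k] ![[], [x, ref j], [y, ref k]] where
  inj := by
    have e1 : h i ≠ h j := fun e => hij (C.inj e)
    have e2 : h i ≠ h k := fun e => hik (C.inj e)
    have e3 : h j ≠ h k := fun e => hjk (C.inj e)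
    intro κ κ' e
    fin_cases κ <;> fin_cases κ' <;> simp_all
  path := by
    intro κ
    fin_cases κ
    · exact ipath_singleton F _
    · exact ipath3 h1.symm h3 (C.ref_ne hij).1 (C.ref_ne hij).2
    · exact ipath3 h2.symm h5 (C.ref_ne hik).1 (C.ref_ne hik).2
  last := by
    intro κ
    fin_cases κ
    · simp [C.ref' i]
    · simp [C.ref' j]
    · simp [C.ref' k]
  mem := C.refW i
  mem' := by
    intro κ v hv
    fin_cases κ
    · simp at hv
    · simp only [Fin.mk_one, Matrix.cons_val_one, Matrix.cons_val_zero,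
        List.mem_cons, List.not_mem_nil, or_false] at hv
      rcases hv with rfl | rfl
      · exact hxW
      · exact C.refW j
    · simp only [Fin.reduceFinMk, Matrix.cons_val, List.mem_cons, List.not_mem_nil,
        or_false] at hv
      rcases hv with rfl | rfl
      · exact hyW
      · exact C.refW k
  len := by
    intro κ
    fin_cases κ
    · simp
      omega
    · simp
      omega
    · simp
      omega
  anti := by
    have a12 : AntiL F [x, ref j] [y, ref k] := by
      intro u hu w hw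
      simp only [List.mem_cons, List.not_mem_nil, or_false] at hu hw
      rcases hu with rfl | rfl <;> rcases hw with rfl | rfl
      · exact ⟨hne, hxy⟩
      · exact ⟨C.X_ne_ref hx k, h6⟩
      · exact ⟨(C.X_ne_ref hy j).symm, fun e => h4 e.symm⟩
      · exact C.ref_ne hjk
    intro κ κ' hκ
    fin_cases κ <;> fin_cases κ'
    · exact absurd rfl hκ
    · intro u hu
      simp at hu
    · intro u hu
      simp at hu
    · intro u hu w hw
      simp at hw
    · exact absurd rfl hκ
    · exact a12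
    · intro u hu w hw
      simp at hw
    · intro u hu w hw
      have := a12 w hw u hu
      exact ⟨this.1.symm, fun e => this.2 e.symm⟩
    · exact absurd rfl hκ
  hub := by
    intro κ
    fin_cases κ
    · exact C.hub_ref i i
    · exact C.hub_ref i j
    · exact C.hub_ref i k
  hub' := by
    have key : ∀ m : Fin 9, ∀ κ' : Fin 3, ∀ v ∈ (![[], [x, ref j], [y, ref k]] : Fin 3 → List V) κ',
        ∀ z ∈ I (h m), F.Adj v z → v = ref' (h m) := by
      intro m κ' v hv
      fin_cases κ'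
      · simp at hv
      · simp only [Fin.mk_one, Matrix.cons_val_one, Matrix.cons_val_zero,
          List.mem_cons, List.not_mem_nil, or_false] at hv
        rcases hv with rfl | rfl
        · exact C.hub_X hx m
        · exact C.hub_ref j m
      · simp only [Fin.reduceFinMk, Matrix.cons_val, List.mem_cons, List.not_mem_nil,
          or_false] at hv
        rcases hv with rfl | rfl
        · exact C.hub_X hy m
        · exact C.hub_ref k m
    intro κ κ' v hv
    fin_cases κ
    · exact key i κ' v hv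
    · exact key j κ' v hv
    · exact key k κ' v hv

/-- link of type O -/
theorem linkO (r : Λ → ℕ) (q : ℕ) {x y o : V} (hx : x ∈ X) (hy : y ∈ X) (ho : o ∈ O)
    (hxW : x ∈ W') (hyW : y ∈ W') (hoW : o ∈ W') (hne : x ≠ y) (hxy : ¬ F.Adj x y)
    (hox : F.Adj o x) (hoy : F.Adj o y) {i j : Fin 9} (hij : i ≠ j)
    (h1 : F.Adj x (ref i)) (h2 : ¬ F.Adj y (ref i)) (h3 : F.Adj y (ref j))
    (h4 : ¬ F.Adj x (ref j)) :
    LinkPiece F I ref' r q ((7 + r (h i) + r (h j)) % q) W' (h i) (h j)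
      [ref i, x, o, y, ref j] where
  ne := fun e => hij (C.inj e)
  path := ipath5 (ipath4 (ipath3 hoy h3 (C.O_leaf o ho _ _ (C.refL j)).1
    (C.O_leaf o ho _ _ (C.refL j)).2) hox.symm hne hxy (C.X_ne_ref hx j) h4) h1.symm
    (C.O_leaf o ho _ _ (C.refL i)).1.symm (fun e => (C.O_leaf o ho _ _ (C.refL i)).2 e.symm)
    (C.X_ne_ref hy i).symm (fun e => h2 e.symm) (C.ref_ne hij).1 (C.ref_ne hij).2
  head := by simp [C.ref' i]
  last := by simp [C.ref' j]
  mem := by
    intro v hv
    simp only [List.mem_cons, List.not_mem_nil, or_false] at hv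
    rcases hv with rfl | rfl | rfl | rfl | rfl
    · exact C.refW i
    · exact hxW
    · exact hoW
    · exact hyW
    · exact C.refW j
  len := by
    congr 1
    simp only [List.length_cons, List.length_nil]
    ring
  hub := by
    intro v hv
    simp only [List.mem_cons, List.not_mem_nil, or_false] at hv
    rcases hv with rfl | rfl | rfl | rfl | rfl
    · exact C.hub_ref i i
    · exact C.hub_X hx i
    · exact C.hub_O ho i
    · exact C.hub_X hy i
    · exact C.hub_ref j i
  hub' := by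
    intro v hv
    simp only [List.mem_cons, List.not_mem_nil, or_false] at hv
    rcases hv with rfl | rfl | rfl | rfl | rfl
    · exact C.hub_ref i j
    · exact C.hub_X hx j
    · exact C.hub_O ho j
    · exact C.hub_X hy j
    · exact C.hub_ref j j

/-- claw of type O -/
theorem clawO (r : Λ → ℕ) {o : V} (ho : o ∈ O) (hoW : o ∈ W') (x : Fin 3 → V)
    (a : Fin 3 → Fin 9) (ha : Function.Injective a) (hx : ∀ κ, x κ ∈ X) (hxW : ∀ κ, x κ ∈ W')
    (hox : ∀ κ, F.Adj o (x κ)) (hxx : ∀ κ κ', κ ≠ κ' → x κ ≠ x κ' ∧ ¬ F.Adj (x κ) (x κ'))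
    (h1 : ∀ κ, F.Adj (x κ) (ref (a κ))) (h2 : ∀ κ κ', κ ≠ κ' → ¬ F.Adj (x κ) (ref (a κ')))
    (hr : ∀ κ, r (h (a κ)) % 2 = 1) :
    ClawPiece F I ref' r W' o (fun κ => h (a κ)) (fun κ => [x κ, ref (a κ)]) where
  inj := fun κ κ' e => ha (C.inj e)
  path := fun κ => ipath3 (hox κ) (h1 κ) (C.O_leaf o ho _ _ (C.refL (a κ))).1
    (C.O_leaf o ho _ _ (C.refL (a κ))).2
  last := fun κ => by simp [C.ref' (a κ)]
  mem := hoW
  mem' := by
    intro κ v hv
    simp only [List.mem_cons, List.not_mem_nil, or_false] at hv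
    rcases hv with rfl | rfl
    · exact hxW κ
    · exact C.refW (a κ)
  len := by
    intro κ
    have := hr κ
    simp only [List.length_cons, List.length_nil]
    omega
  anti := by
    intro κ κ' hne u hu w hw
    simp only [List.mem_cons, List.not_mem_nil, or_false] at hu hw
    rcases hu with rfl | rfl <;> rcases hw with rfl | rfl
    · exact hxx κ κ' hne
    · exact ⟨C.X_ne_ref (hx κ) _, h2 κ κ' hne⟩
    · exact ⟨(C.X_ne_ref (hx κ') _).symm, fun e => h2 κ' κ hne.symm e.symm⟩
    · exact C.ref_ne fun e => hne (ha e)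
  hub := fun κ y hy hxy => C.hub_O ho (a κ) y hy hxy
  hub' := by
    intro κ κ' v hv
    simp only [List.mem_cons, List.not_mem_nil, or_false] at hv
    rcases hv with rfl | rfl
    · exact C.hub_X (hx κ') (a κ)
    · exact C.hub_ref (a κ') (a κ)

/-- the analysis at one centre with three leaves -/
theorem centre (r : Λ → ℕ) {q : ℕ} (hq : q = 2 ∨ q = 3) {x : V} (hx : x ∈ X) (hxW : x ∈ W')
    (a b c : Fin 9) (hab : a ≠ b) (hac : a ≠ c) (hbc : b ≠ c) (ha : F.Adj x (ref a))
    (hb : F.Adj x (ref b)) (hc : F.Adj x (ref c)) :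
    ((∃ g l l' D, g < q ∧ g + 1 ≠ q ∧ (∃ j, l = h j) ∧ (∃ j, l' = h j) ∧
      LinkPiece F I ref' r q g W' l l' D) ∨
      (q = 2 ∧ ∃ c l D, (∀ κ, ∃ j, l κ = h j) ∧ ClawPiece F I ref' r W' c l D)) ∨
      (q = 2 ∧ r (h a) % 2 = 1 ∧ r (h b) % 2 = 1 ∧ r (h c) % 2 = 1) ∨
      (q = 3 ∧ r (h a) % 3 = 0 ∧ r (h b) % 3 = 0 ∧ r (h c) % 3 = 0) := by
  have hq0 : 0 < q := by omega
  by_cases gab : (5 + r (h a) + r (h b)) % q + 1 ≠ q
  · exact Or.inl (Or.inl ⟨_, _, _, _, Nat.mod_lt _ hq0, gab, ⟨a, rfl⟩, ⟨b, rfl⟩,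
      C.link1 r q hx hxW hab ha hb⟩)
  by_cases gac : (5 + r (h a) + r (h c)) % q + 1 ≠ q
  · exact Or.inl (Or.inl ⟨_, _, _, _, Nat.mod_lt _ hq0, gac, ⟨a, rfl⟩, ⟨c, rfl⟩,
      C.link1 r q hx hxW hac ha hc⟩)
  by_cases gbc : (5 + r (h b) + r (h c)) % q + 1 ≠ q
  · exact Or.inl (Or.inl ⟨_, _, _, _, Nat.mod_lt _ hq0, gbc, ⟨b, rfl⟩, ⟨c, rfl⟩,
      C.link1 r q hx hxW hbc hb hc⟩)
  push Not at gab gac gbc
  rcases hq with rfl | rfl
  · by_cases hodd : r (h a) % 2 = 1
    · refine Or.inr (Or.inl ⟨rfl, hodd, ?_, ?_⟩) <;> omega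
    · refine Or.inl (Or.inr ⟨rfl, x, _, _, fun κ => ⟨![a, b, c] κ, rfl⟩,
        C.claw1 r hx hxW ![a, b, c] ?_ ?_ ?_⟩)
      · intro κ κ' e
        fin_cases κ <;> fin_cases κ' <;> simp_all
      · intro κ
        fin_cases κ
        · exact ha
        · exact hb
        · exact hc
      · intro κ
        fin_cases κ
        · change r (h a) % 2 = 0
          omega
        · change r (h b) % 2 = 0
          omega
        · change r (h c) % 2 = 0
          omega
  · refine Or.inr (Or.inr ⟨rfl, ?_, ?_, ?_⟩) <;> omega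

end GCtx

end Pool.Agent.Helper32.PD
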